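import Pool.Agent.H21.ASY.Stmts

/-! # ASY, row SQP: few pairs with a large squarefull divisor -/

set_option autoImplicit false

namespace Pool.ASY

open Finset MeasureTheory Pool.Agent.H98.ABCR Pool.SHA

namespace SQP

/-- the part of a squarefull divisor in one of the factors of a coprime product -/
theorem part {d m n : ℕ} (hd : Sqf d) (hdv : d ∣ m * n) (hmn : m.Coprime n) (hm : 0 < m) :
    Sqf (d.gcd m) := by
  refine ⟨Nat.gcd_pos_of_pos_right _ hm, fun p hp hpd => ?_⟩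
  have h1 : p ∣ d := hpd.trans (Nat.gcd_dvd_left _ _)
  have h2 : p ∣ m := hpd.trans (Nat.gcd_dvd_right _ _)
  have h3 : p ^ 2 ∣ d := hd.2 p hp h1
  have hpn : (p ^ 2).Coprime n := by
    refine Nat.Coprime.pow_left 2 ?_
    exact Nat.Coprime.coprime_dvd_left h2 hmn
  exact Nat.dvd_gcd h3 (hpn.dvd_of_dvd_mul_right (h3.trans hdv))

/-- one of the coordinates has a large squarefull divisor -/
theorem exists_part {a b d : ℕ} (Y : ℝ) (hY : 1 ≤ Y) (ha : 0 < a) (hb : 0 < b) (hab : a.Coprime b)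
    (hd : Sqf d) (hdv : d ∣ a * b * (a + b)) (hYd : Y < d) :
    ∃ k, Sqf k ∧ Y ^ (1 / 3 : ℝ) < k ∧ (k ∣ a ∨ k ∣ b ∨ k ∣ a + b) := by
  have hac : a.Coprime (a + b) := by simpa using hab
  have hbc : b.Coprime (a + b) := by simpa using hab.symm
  have e1 : d ∣ a * (b * (a + b)) := by rwa [← mul_assoc]
  have e2 : d ∣ b * (a * (a + b)) := by
    have : a * b * (a + b) = b * (a * (a + b)) := by ring
    rwa [this] at hdv
  have e3 : d ∣ (a + b) * (a * b) := by rwa [mul_comm]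
  have s1 : Sqf (d.gcd a) := part hd e1 (Nat.Coprime.mul_right hab hac) ha
  have s2 : Sqf (d.gcd b) := part hd e2 (Nat.Coprime.mul_right hab.symm hbc) hb
  have s3 : Sqf (d.gcd (a + b)) :=
    part hd e3 (Nat.Coprime.mul_right hac.symm hbc.symm) (by omega)
  have hprod : d ∣ d.gcd a * d.gcd b * d.gcd (a + b) := by
    have h1 : d.gcd (a * b * (a + b)) = d := Nat.gcd_eq_left hdv
    have h2 := Nat.gcd_mul_right_dvd_mul_gcd d (a * b) (a + b)
    have h3 := Nat.gcd_mul_right_dvd_mul_gcd d a b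
    rw [h1] at h2
    exact h2.trans (Nat.mul_dvd_mul_right h3 _)
  have hle : d ≤ d.gcd a * d.gcd b * d.gcd (a + b) :=
    Nat.le_of_dvd (Nat.mul_pos (Nat.mul_pos s1.1 s2.1) s3.1) hprod
  set t : ℝ := Y ^ (1 / 3 : ℝ) with ht
  have ht0 : 0 < t := by positivity
  have ht3 : t ^ 3 = Y := by
    rw [ht, ← Real.rpow_natCast, ← Real.rpow_mul (by linarith)]
    norm_num
  by_contra hcon
  push Not at hcon
  have c1 : ((d.gcd a : ℕ) : ℝ) ≤ t := by
    by_contra h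
    exact (hcon _ s1 (not_le.mp h)).1 (Nat.gcd_dvd_right _ _)
  have c2 : ((d.gcd b : ℕ) : ℝ) ≤ t := by
    by_contra h
    exact (hcon _ s2 (not_le.mp h)).2.1 (Nat.gcd_dvd_right _ _)
  have c3 : ((d.gcd (a + b) : ℕ) : ℝ) ≤ t := by
    by_contra h
    exact (hcon _ s3 (not_le.mp h)).2.2 (Nat.gcd_dvd_right _ _)
  have h1 : (d : ℝ) ≤ t * t * t := by
    calc (d : ℝ) ≤ ((d.gcd a * d.gcd b * d.gcd (a + b) : ℕ) : ℝ) := by exact_mod_cast hle
      _ = (d.gcd a : ℝ) * d.gcd b * d.gcd (a + b) := by push_cast; rfl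
      _ ≤ t * t * t := by gcongr
  have h2 : t * t * t = Y := by rw [← ht3]; ring
  linarith

/-- the number of the multiples of `k` -/
theorem mult_le (Z : ℝ) (hZ : 1 ≤ Z) (k : ℕ) (hk : 0 < k) :
    (((Icc 1 ⌊Z⌋₊).filter (fun x => k ∣ x)).card : ℝ) ≤ Z / k := by
  have h : (Icc 1 ⌊Z⌋₊).filter (fun x => k ∣ x) = (Ioc 0 ⌊Z⌋₊).filter (fun x => k ∣ x) := by
    rfl
  rw [h, Nat.Ioc_filter_dvd_card_eq_div]
  refine Nat.cast_div_le.trans ?_
  exact div_le_div_of_nonneg_right (Nat.floor_le (by linarith)) (by positivity)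

theorem icc_le (Z : ℝ) (hZ : 1 ≤ Z) : ((Icc 1 ⌊Z⌋₊).card : ℝ) ≤ Z := by
  rw [Nat.card_Icc, Nat.add_sub_cancel]
  exact Nat.floor_le (by linarith)

theorem cA (Z : ℝ) (hZ : 1 ≤ Z) (k : ℕ) (hk : 0 < k) :
    (((box Z).filter (fun v => k ∣ v.1)).card : ℝ) ≤ Z ^ 2 / k := by
  have hsub : (box Z).filter (fun v => k ∣ v.1) ⊆
      ((Icc 1 ⌊Z⌋₊).filter (fun x => k ∣ x)) ×ˢ Icc 1 ⌊Z⌋₊ := by
    intro v hv
    rw [box, mem_filter, mem_filter, mem_product] at hv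
    rw [mem_product, mem_filter]
    exact ⟨⟨hv.1.1.1, hv.2⟩, hv.1.1.2⟩
  calc (((box Z).filter (fun v => k ∣ v.1)).card : ℝ)
      ≤ ((((Icc 1 ⌊Z⌋₊).filter (fun x => k ∣ x)) ×ˢ Icc 1 ⌊Z⌋₊).card : ℝ) := by
        exact_mod_cast card_le_card hsub
    _ = (((Icc 1 ⌊Z⌋₊).filter (fun x => k ∣ x)).card : ℝ) * ((Icc 1 ⌊Z⌋₊).card : ℝ) := by
        rw [card_product]; push_cast; rfl
    _ ≤ (Z / k) * Z := mul_le_mul (mult_le Z hZ k hk) (icc_le Z hZ) (by positivity)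
        (by positivity)
    _ = Z ^ 2 / k := by ring

theorem cB (Z : ℝ) (hZ : 1 ≤ Z) (k : ℕ) (hk : 0 < k) :
    (((box Z).filter (fun v => k ∣ v.2)).card : ℝ) ≤ Z ^ 2 / k := by
  have hsub : (box Z).filter (fun v => k ∣ v.2) ⊆
      Icc 1 ⌊Z⌋₊ ×ˢ ((Icc 1 ⌊Z⌋₊).filter (fun x => k ∣ x)) := by
    intro v hv
    rw [box, mem_filter, mem_filter, mem_product] at hv
    rw [mem_product, mem_filter]
    exact ⟨hv.1.1.1, hv.1.1.2, hv.2⟩
  calc (((box Z).filter (fun v => k ∣ v.2)).card : ℝ)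
      ≤ ((Icc 1 ⌊Z⌋₊ ×ˢ ((Icc 1 ⌊Z⌋₊).filter (fun x => k ∣ x))).card : ℝ) := by
        exact_mod_cast card_le_card hsub
    _ = ((Icc 1 ⌊Z⌋₊).card : ℝ) * (((Icc 1 ⌊Z⌋₊).filter (fun x => k ∣ x)).card : ℝ) := by
        rw [card_product]; push_cast; rfl
    _ ≤ Z * (Z / k) := mul_le_mul (icc_le Z hZ) (mult_le Z hZ k hk) (by positivity)
        (by positivity)
    _ = Z ^ 2 / k := by ring

theorem cC (Z : ℝ) (hZ : 1 ≤ Z) (k : ℕ) (hk : 0 < k) :
    (((box Z).filter (fun v => k ∣ v.1 + v.2)).card : ℝ) ≤ Z ^ 2 / k := by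
  have hmaps : ∀ v ∈ (box Z).filter (fun v => k ∣ v.1 + v.2),
      (v.1 + v.2, v.1) ∈ ((Icc 1 ⌊Z⌋₊).filter (fun x => k ∣ x)) ×ˢ Icc 1 ⌊Z⌋₊ := by
    intro v hv
    rw [box, mem_filter, mem_filter, mem_product, mem_Icc] at hv
    rw [mem_product, mem_filter, mem_Icc]
    exact ⟨⟨⟨by have := hv.1.1.1.1; omega, Nat.le_floor hv.1.2.2⟩, hv.2⟩,
      mem_Icc.mpr hv.1.1.1⟩
  have hinj : Set.InjOn (fun v : ℕ × ℕ => (v.1 + v.2, v.1))
      ((box Z).filter (fun v => k ∣ v.1 + v.2)) := by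
    intro v _ w _ h
    simp only [Prod.mk.injEq] at h
    exact Prod.ext h.2 (by omega)
  calc (((box Z).filter (fun v => k ∣ v.1 + v.2)).card : ℝ)
      ≤ ((((Icc 1 ⌊Z⌋₊).filter (fun x => k ∣ x)) ×ˢ Icc 1 ⌊Z⌋₊).card : ℝ) := by
        exact_mod_cast card_le_card_of_injOn _ hmaps hinj
    _ = (((Icc 1 ⌊Z⌋₊).filter (fun x => k ∣ x)).card : ℝ) * ((Icc 1 ⌊Z⌋₊).card : ℝ) := by
        rw [card_product]; push_cast; rfl
    _ ≤ (Z / k) * Z := mul_le_mul (mult_le Z hZ k hk) (icc_le Z hZ) (by positivity)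
        (by positivity)
    _ = Z ^ 2 / k := by ring

end SQP

open SQP in
theorem sqp_thm (h1 : S_TAI) (h2 : S_EXC) : S_SQP := by
  classical
  obtain ⟨C, hC1, -, hC⟩ := h1
  refine ⟨3 * C, by linarith, fun Z Y hZ hY F hF hv => ?_⟩
  set S : Finset ℕ := (Icc 1 ⌊Z⌋₊).filter (fun k => Sqf k ∧ Y ^ (1 / 3 : ℝ) < k) with hS
  have hsub : F ⊆ S.biUnion (fun k => ((box Z).filter (fun v => k ∣ v.1) ∪
      (box Z).filter (fun v => k ∣ v.2)) ∪ (box Z).filter (fun v => k ∣ v.1 + v.2)) := by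
    intro v hvF
    obtain ⟨d, hd, hdn, hYd⟩ := hv v hvF
    have hb := hF hvF
    have hb' := hb
    rw [box, mem_filter, mem_product, mem_Icc, mem_Icc] at hb'
    obtain ⟨⟨⟨a1, a2⟩, b1, b2⟩, hcop, hsum⟩ := hb'
    have hs : v.1 + v.2 ≤ ⌊Z⌋₊ := Nat.le_floor hsum
    obtain ⟨k, hk, hYk, hkd⟩ := exists_part Y hY (by omega) (by omega) hcop hd hdn hYd
    have hkZ : k ≤ ⌊Z⌋₊ := by
      rcases hkd with h | h | h
      · exact (Nat.le_of_dvd (by omega) h).trans a2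
      · exact (Nat.le_of_dvd (by omega) h).trans b2
      · exact (Nat.le_of_dvd (by omega) h).trans hs
    rw [mem_biUnion]
    refine ⟨k, ?_, ?_⟩
    · rw [hS, mem_filter, mem_Icc]
      exact ⟨⟨hk.1, hkZ⟩, hk, hYk⟩
    · rw [mem_union, mem_union, mem_filter, mem_filter, mem_filter]
      rcases hkd with h | h | h
      · exact Or.inl (Or.inl ⟨hb, h⟩)
      · exact Or.inl (Or.inr ⟨hb, h⟩)
      · exact Or.inr ⟨hb, h⟩
  have hterm : ∀ k ∈ S, ((((box Z).filter (fun v => k ∣ v.1) ∪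
      (box Z).filter (fun v => k ∣ v.2)) ∪ (box Z).filter (fun v => k ∣ v.1 + v.2)).card : ℝ) ≤
      3 * Z ^ 2 * (1 / (k : ℝ)) := by
    intro k hk
    have hk0 : 0 < k := by
      rw [hS, mem_filter, mem_Icc] at hk
      exact hk.1.1
    have u1 : ((((box Z).filter (fun v => k ∣ v.1) ∪
        (box Z).filter (fun v => k ∣ v.2)) ∪ (box Z).filter (fun v => k ∣ v.1 + v.2)).card : ℝ) ≤
        (((box Z).filter (fun v => k ∣ v.1)).card : ℝ) +
          (((box Z).filter (fun v => k ∣ v.2)).card : ℝ) +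
          (((box Z).filter (fun v => k ∣ v.1 + v.2)).card : ℝ) := by
      have := card_union_le (((box Z).filter (fun v => k ∣ v.1) ∪
        (box Z).filter (fun v => k ∣ v.2))) ((box Z).filter (fun v => k ∣ v.1 + v.2))
      have h' := card_union_le ((box Z).filter (fun v => k ∣ v.1))
        ((box Z).filter (fun v => k ∣ v.2))
      exact_mod_cast this.trans (Nat.add_le_add_right h' _)
    refine u1.trans ?_
    have := cA Z hZ k hk0
    have := cB Z hZ k hk0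
    have := cC Z hZ k hk0
    have e : 3 * Z ^ 2 * (1 / (k : ℝ)) = Z ^ 2 / k + Z ^ 2 / k + Z ^ 2 / k := by ring
    rw [e]
    linarith
  have hYt : (1 : ℝ) ≤ Y ^ (1 / 3 : ℝ) := Real.one_le_rpow hY (by norm_num)
  have hsum := hC (Y ^ (1 / 3 : ℝ)) S hYt (fun k hk => by
    rw [hS, mem_filter] at hk
    exact hk.2)
  have hle : ∑ k ∈ S, 1 / (k : ℝ) ≤ C * Y ^ (-(1 / 72) : ℝ) := by
    have e : (Y ^ (1 / 3 : ℝ)) ^ (-(1 / 24) : ℝ) = Y ^ (-(1 / 72) : ℝ) := by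
      rw [← Real.rpow_mul (by linarith)]
      norm_num
    rw [e] at hsum
    refine le_trans (Finset.sum_le_sum fun k hk => ?_) hsum
    have hk0 : 0 < k := by
      rw [hS, mem_filter, mem_Icc] at hk
      exact hk.1.1
    have g1 : (1 : ℝ) ≤ 6 ^ om k := one_le_pow₀ (by norm_num)
    have g2 : (1 : ℝ) ≤ (exc k : ℝ) ^ (2 / 3 + 1 / 24 : ℝ) := by
      refine Real.one_le_rpow ?_ (by norm_num)
      exact_mod_cast (h2.1 k hk0).2
    refine div_le_div_of_nonneg_right ?_ (by positivity)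
    nlinarith
  calc (F.card : ℝ) ≤ ((S.biUnion (fun k => ((box Z).filter (fun v => k ∣ v.1) ∪
      (box Z).filter (fun v => k ∣ v.2)) ∪ (box Z).filter (fun v => k ∣ v.1 + v.2))).card : ℝ) := by
        exact_mod_cast card_le_card hsub
    _ ≤ ∑ k ∈ S, ((((box Z).filter (fun v => k ∣ v.1) ∪
      (box Z).filter (fun v => k ∣ v.2)) ∪ (box Z).filter (fun v => k ∣ v.1 + v.2)).card : ℝ) := by
        exact_mod_cast card_biUnion_le
    _ ≤ ∑ k ∈ S, 3 * Z ^ 2 * (1 / (k : ℝ)) := Finset.sum_le_sum hterm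
    _ = 3 * Z ^ 2 * ∑ k ∈ S, 1 / (k : ℝ) := by rw [Finset.mul_sum]
    _ ≤ 3 * Z ^ 2 * (C * Y ^ (-(1 / 72) : ℝ)) := mul_le_mul_of_nonneg_left hle (by positivity)
    _ = 3 * C * Z ^ 2 * Y ^ (-(1 / 72) : ℝ) := by ring

end Pool.ASY
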